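import Mathlib

/-! Alternating sums with two dominant terms. -/

open Finset

namespace Pool.Agent.MP_dbd6a6_co.H21

theorem geomL (f : ℕ → ℝ) (q c : ℝ) (hc0 : 0 ≤ c) (hc : q * (1 + c) ≤ c) :
    ∀ k : ℕ, (∀ j, 1 ≤ j → j ≤ k → 0 ≤ f j) → (∀ j, 1 ≤ j → j < k → f j ≤ q * f (j + 1)) →
      1 ≤ k → ∑ j ∈ Ico 1 k, f j ≤ c * f k := by
  intro k
  induction k with
  | zero => intro _ _ h; omega
  | succ k ih =>
    intro h0 h1 _
    rcases Nat.eq_zero_or_pos k with rfl | hk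
    · simpa using mul_nonneg hc0 (h0 1 le_rfl le_rfl)
    · rw [sum_Ico_succ_top hk]
      have h2 := ih (fun j a b => h0 j a (by omega)) (fun j a b => h1 j a (by omega)) hk
      have h3 := h1 k hk (by omega)
      have h4 := h0 (k + 1) (by omega) le_rfl
      nlinarith [mul_le_mul_of_nonneg_left h3 (by linarith : 0 ≤ 1 + c),
        mul_le_mul_of_nonneg_right hc h4]

theorem geomR (f : ℕ → ℝ) (q c : ℝ) (hc0 : 0 ≤ c) (hc : q * (1 + c) ≤ c) (K : ℕ)
    (h0 : ∀ j, K ≤ j → 0 ≤ f j) (h1 : ∀ j, K ≤ j → f (j + 1) ≤ q * f j) (N : ℕ) :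
    ∑ j ∈ Ico (K + 1) N, f j ≤ c * f K := by
  have key : ∀ d, ∑ j ∈ Ico (K + 1) (K + 1 + d), f j + c * f (K + d) ≤ c * f K := by
    intro d
    induction d with
    | zero => simp
    | succ d ih =>
      rw [← add_assoc, sum_Ico_succ_top (by omega)]
      have h2 := h1 (K + d) (by omega)
      have h3 := h0 (K + d) (by omega)
      have e : K + 1 + d = K + d + 1 := by ring
      rw [e, ← add_assoc]
      rw [e] at ih
      nlinarith [mul_le_mul_of_nonneg_left h2 (by linarith : 0 ≤ 1 + c),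
        mul_le_mul_of_nonneg_right hc h3]
  rcases le_total N (K + 1) with h | h
  · rw [Ico_eq_empty (by omega), sum_empty]
    exact mul_nonneg hc0 (h0 K le_rfl)
  · obtain ⟨d, rfl⟩ := Nat.exists_eq_add_of_le h
    have := key d
    have := mul_nonneg hc0 (h0 (K + d) (by omega))
    linarith

theorem alt_le (t : ℕ → ℝ) (k M : ℕ) (hk : 1 ≤ k) (hM : k + 1 ≤ M) :
    (-1) ^ (k + 1) * ∑ j ∈ range M, (-1) ^ j * t (j + 1) ≤
      t k - t (k + 1) + ∑ j ∈ Ico 1 k, |t j| + ∑ j ∈ Ico (k + 2) (M + 1), |t j| := by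
  have h1 : (-1) ^ (k + 1) * ∑ j ∈ range M, (-1) ^ j * t (j + 1) =
      ∑ j ∈ Ico 1 (M + 1), (-1) ^ (k + j) * t j := by
    rw [mul_sum, range_eq_Ico, ← sum_Ico_add' (fun j => (-1 : ℝ) ^ (k + j) * t j) 0 M 1]
    refine sum_congr rfl fun j _ => ?_
    ring
  have h2 : ∀ s : Finset ℕ, ∑ j ∈ s, (-1) ^ (k + j) * t j ≤ ∑ j ∈ s, |t j| := fun s =>
    sum_le_sum fun j _ => (le_abs_self _).trans (by rw [abs_mul, abs_pow, abs_neg, abs_one]; simp)
  rw [h1, ← sum_Ico_consecutive _ hk (by omega : k ≤ M + 1),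
    sum_eq_sum_Ico_succ_bot (by omega : k < M + 1),
    sum_eq_sum_Ico_succ_bot (by omega : k + 1 < M + 1)]
  have e1 : (-1 : ℝ) ^ (k + k) = 1 := by rw [← two_mul, pow_mul]; simp
  have e2 : (-1 : ℝ) ^ (k + (k + 1)) = -1 := by rw [← add_assoc, pow_succ, e1]; simp
  rw [e1, e2]
  have := h2 (Ico 1 k)
  have := h2 (Ico (k + 1 + 1) (M + 1))
  linarith

/-- the alternating sum -/
noncomputable def CC (a : ℕ → ℕ → ℝ) (m : ℕ) : ℝ :=
  ∑ j ∈ range m, (-1) ^ j * a (j + 1) m / (j + 1)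

theorem CC_eq (a : ℕ → ℕ → ℝ) (zero : ∀ j m, m < j → a j m = 0) (m : ℕ) :
    CC a m = ∑ j ∈ range (m + 1), (-1) ^ j * (a (j + 1) m / ((j + 1 : ℕ) : ℝ)) := by
  rw [sum_range_succ, zero (m + 1) m (by omega), CC]
  simp [mul_div_assoc]

theorem g_up {N j k : ℝ} (hj : 0 ≤ j) (hjk : j ≤ k) (hN : k < N) :
    j * N / (N - j) ≤ k * N / (N - k) := by
  have : 0 ≤ N := by linarith
  gcongr
  exact mul_nonneg (by linarith) this

theorem gb_le {N k : ℝ} (hk : 1 ≤ k) (hN : 11.5 * (k + 1) ^ 2 ≤ N - (k + 1)) :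
    k ≤ k * N / (N - k) ∧ k * N / (N - k) ≤ k + 0.087 := by
  have h : 0 < N - k := by nlinarith
  rw [le_div_iff₀ h, div_le_iff₀ h]
  constructor <;> nlinarith

theorem g_low {N j k : ℝ} (hk : 1 ≤ k) (hj : 0 ≤ j) (hjk : j ≤ k + 1)
    (hN : 11.5 * (k + 1) ^ 2 ≤ N - (k + 1)) : j - 0.522 ≤ j * N / (N + 6 * j) := by
  have h : 0 < N + 6 * j := by nlinarith
  rw [le_div_iff₀ h]
  nlinarith [mul_le_mul hjk hjk hj (by linarith : 0 ≤ k + 1)]

theorem g_low' {N j K : ℝ} (hK : 0 ≤ K) (hjk : K ≤ j) (hN : 0 < N) :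
    K * N / (N + 6 * K) ≤ j * N / (N + 6 * j) := by
  rw [div_le_div_iff₀ (by linarith) (by linarith)]
  nlinarith [mul_nonneg (mul_pos hN hN).le (sub_nonneg.mpr hjk)]

theorem g_right {N j k : ℝ} (hk : 1 ≤ k) (hjk : k + 1 ≤ j) (hjN : j + 1 ≤ N)
    (hN : 11.5 * (k + 1) ^ 2 ≤ N - (k + 1)) :
    j * N / (N - j) ≤ j + 0.087 * (j - k) ^ 3 := by
  have h : 0 < N - j := by linarith
  rw [div_le_iff₀ h]
  obtain ⟨i, rfl⟩ : ∃ i, j = k + 1 + i := ⟨j - (k + 1), by ring⟩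
  obtain ⟨P, rfl⟩ : ∃ P, N = P + (k + 1) := ⟨N - (k + 1), by ring⟩
  have hi : 0 ≤ i := by linarith
  have h1 : P ≤ (P - i) * (i + 1) := by nlinarith
  have h2 : (k + 1 + i) ^ 2 ≤ ((k + 1) * (i + 1)) ^ 2 := by
    apply pow_le_pow_left₀ (by linarith)
    nlinarith
  have h3 : 11.5 * (k + 1) ^ 2 * (i + 1) ^ 2 ≤ (P - i) * (i + 1) * (i + 1) ^ 2 :=
    mul_le_mul_of_nonneg_right (by linarith) (sq_nonneg _)
  have h4 : 0 ≤ ((k + 1) * (i + 1)) ^ 2 := sq_nonneg _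
  have e1 : k + 1 + i - k = i + 1 := by ring
  have e2 : P + (k + 1) - (k + 1 + i) = P - i := by ring
  rw [e1, e2]
  nlinarith

section Step

variable (a : ℕ → ℕ → ℝ) (β y : ℝ) (hβ : 4 ≤ β) (hy0 : 0 < y) (hy : y ≤ 1 / 10 ^ 6)
  (pos : ∀ j m, 1 ≤ j → j ≤ m → 0 < a j m) (zero : ∀ j m, m < j → a j m = 0)
  (diag : ∀ m : ℕ, a (m + 1) (m + 1) = (m + 1) * y * a m m)
  (up : ∀ j m : ℕ, ((m : ℝ) + 1 - j) * a j (m + 1) ≤ j * β * (m + 1) * a j m)
  (low : ∀ j m : ℕ, j * β * (m + 1) * a j m ≤ ((m : ℝ) + 1 + 6 * j) * a j (m + 1))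

include pos zero in
theorem a_nonneg (j m : ℕ) (hj : 1 ≤ j) : 0 ≤ a j m := by
  rcases le_or_gt j m with h | h
  · exact (pos j m hj h).le
  · exact (zero j m h).ge

include up in
theorem b_up (j m : ℕ) (hj : 1 ≤ j) (hjm : j ≤ m) :
    a j (m + 1) / j ≤ β * (j * (m + 1) / (m + 1 - j)) * (a j m / j) := by
  have h1 : (0 : ℝ) < j := by exact_mod_cast hj
  have h2 : (j : ℝ) ≤ m := by exact_mod_cast hjm
  have h3 : (0 : ℝ) < m + 1 - j := by linarith
  rw [← mul_div_assoc, ← mul_div_assoc]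
  gcongr
  rw [div_mul_eq_mul_div, le_div_iff₀ h3]
  linarith [up j m]

include low in
theorem b_low (j m : ℕ) (hj : 1 ≤ j) :
    β * (j * (m + 1) / (m + 1 + 6 * j)) * (a j m / j) ≤ a j (m + 1) / j := by
  have h1 : (0 : ℝ) < j := by exact_mod_cast hj
  have h3 : (0 : ℝ) < m + 1 + 6 * j := by positivity
  rw [← mul_div_assoc, ← mul_div_assoc]
  gcongr
  rw [div_mul_eq_mul_div, div_le_iff₀ h3]
  linarith [low j m]

theorem succ_div {u v q : ℝ} {j : ℕ} (hj : 1 ≤ j) (hv : 0 ≤ v) (hq : 0 ≤ q) (h : u ≤ q * v) :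
    u / ((j + 1 : ℕ) : ℝ) ≤ q * (v / j) := by
  have h1 : (0 : ℝ) < j := by exact_mod_cast hj
  rw [← mul_div_assoc]
  push_cast
  exact div_le_div₀ (mul_nonneg hq hv) h h1 (by linarith)

theorem div_succ {u v q : ℝ} {j : ℕ} (hj : 1 ≤ j) (hv : 0 ≤ v) (hq : 0 ≤ q) (h : u ≤ q * v) :
    u / j ≤ 2 * q * (v / ((j + 1 : ℕ) : ℝ)) := by
  have h1 : (1 : ℝ) ≤ j := by exact_mod_cast hj
  rw [← mul_div_assoc]
  push_cast
  rw [div_le_div_iff₀ (by linarith) (by linarith)]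
  nlinarith [mul_nonneg hq hv, mul_le_mul_of_nonneg_right h (by linarith : (0 : ℝ) ≤ j + 1)]

include hβ hy0 hy pos zero diag up low in
theorem step (m k : ℕ) (hk : 1 ≤ k) (hm : 11.5 * ((k : ℝ) + 1) ^ 2 + k ≤ m)
    (hL : ∀ j, 1 ≤ j → j < k → a j m ≤ 0.0327 * a (j + 1) m)
    (hR : ∀ j, k + 1 ≤ j → a (j + 1) m ≤ 0.0465 * a j m) :
    ∃ l : ℝ, 0 < l ∧ (-1) ^ (k + 1) * (CC a (m + 1) - l * CC a m) < 0 := by
  have hk' : (1 : ℝ) ≤ k := by exact_mod_cast hk
  have hN : 11.5 * ((k : ℝ) + 1) ^ 2 ≤ (m + 1) - (k + 1) := by linarith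
  have hkm' : (2 * k + 2 : ℝ) ≤ m := by nlinarith
  have hkm : 2 * k + 2 ≤ m := by exact_mod_cast hkm'
  obtain ⟨gb, hgb⟩ : ∃ gb : ℝ, gb = k * (m + 1) / (m + 1 - k) := ⟨_, rfl⟩
  obtain ⟨hg1, hg2⟩ := gb_le hk' hN
  rw [← hgb] at hg1 hg2
  have hβ0 : 0 < β := by linarith
  refine ⟨β * (gb + 0.2), mul_pos hβ0 (by linarith), ?_⟩
  obtain ⟨b, hb⟩ : ∃ b : ℕ → ℝ, b = fun j => a j m / j := ⟨_, rfl⟩
  have hb0 : ∀ j, 1 ≤ j → 0 ≤ b j := fun j hj => by
    rw [hb]
    exact div_nonneg (a_nonneg a pos zero j m hj) (Nat.cast_nonneg _)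
  obtain ⟨t, ht⟩ : ∃ t : ℕ → ℝ, t = fun j => a j (m + 1) / j - β * (gb + 0.2) * b j := ⟨_, rfl⟩
  have h1 : CC a (m + 1) - β * (gb + 0.2) * CC a m =
      ∑ j ∈ range (m + 1), (-1) ^ j * t (j + 1) := by
    rw [CC_eq a zero m, CC, mul_sum, ← sum_sub_distrib]
    refine sum_congr rfl fun j _ => ?_
    simp only [ht, hb]
    push_cast
    ring
  have hup : ∀ j : ℕ, 1 ≤ j → j ≤ m → ∀ g : ℝ, j * (m + 1) / (m + 1 - j) ≤ g →
      t j ≤ β * ((g - gb - 0.2) * b j) := by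
    intro j hj hjm g hg
    have h2 := b_up a β up j m hj hjm
    have h3 := mul_le_mul_of_nonneg_right (mul_le_mul_of_nonneg_left hg hβ0.le) (hb0 j hj)
    simp only [ht, hb] at h3 ⊢
    linarith
  have hlow : ∀ j : ℕ, 1 ≤ j → ∀ g : ℝ, g ≤ j * (m + 1) / (m + 1 + 6 * j) →
      β * ((g - gb - 0.2) * b j) ≤ t j := by
    intro j hj g hg
    have h2 := b_low a β low j m hj
    have h3 := mul_le_mul_of_nonneg_right (mul_le_mul_of_nonneg_left hg hβ0.le) (hb0 j hj)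
    simp only [ht, hb] at h3 ⊢
    linarith
  have hbk : 0 < b k := by
    rw [hb]
    exact div_pos (pos k m hk (by omega)) (by linarith)
  have hbK := hb0 (k + 1) (by omega)
  have t1 : t k ≤ β * (-0.2 * b k) := by
    have := hup k hk (by omega) gb hgb.ge
    simpa using this
  have hK : (k + 1 : ℝ) - 0.522 ≤ (k + 1) * (m + 1) / (m + 1 + 6 * (k + 1)) :=
    g_low hk' (by linarith) le_rfl hN
  have t2 : β * (0.19 * b (k + 1)) ≤ t (k + 1) := by
    refine le_trans ?_ (hlow (k + 1) (by omega) (gb + 0.39) (by push_cast; linarith))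
    apply le_of_eq
    ring
  have t3 : ∑ j ∈ Ico 1 k, |t j| ≤ β * (0.151 * b k) := by
    have h2 := geomL (fun j => ((k : ℝ) - j + 1) * b j) 0.1308 0.151 (by norm_num) (by norm_num) k
      (fun j hj hjk => mul_nonneg (by
        have : (j : ℝ) ≤ k := by exact_mod_cast hjk
        linarith) (hb0 j hj))
      (fun j hj hjk => by
        have h3 : (j : ℝ) + 1 ≤ k := by exact_mod_cast hjk
        have h4 : b j ≤ 2 * 0.0327 * b (j + 1) := by
          rw [hb]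
          exact div_succ hj (a_nonneg a pos zero _ m (by omega)) (by norm_num) (hL j hj hjk)
        have h5 := hb0 (j + 1) (by omega)
        push_cast
        nlinarith [mul_le_mul_of_nonneg_left h4 (by linarith : (0 : ℝ) ≤ k - j + 1),
          mul_nonneg h5 (by linarith : (0 : ℝ) ≤ k - j - 1)]) hk
    simp only [sub_self, zero_add, one_mul] at h2
    refine le_trans ?_ (mul_le_mul_of_nonneg_left h2 hβ0.le)
    rw [mul_sum]
    refine sum_le_sum fun j hj => ?_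
    obtain ⟨hj1, hj2⟩ := mem_Ico.mp hj
    have h3 : (j : ℝ) + 1 ≤ k := by exact_mod_cast hj2
    have h4 := hup j hj1 (by omega) gb (hgb ▸ g_up (Nat.cast_nonneg j) (by linarith) (by linarith))
    have h5 := hlow j hj1 _ (g_low hk' (Nat.cast_nonneg j) (by linarith) hN)
    have h6 := mul_nonneg hβ0.le (hb0 j hj1)
    rw [abs_le]
    constructor <;> nlinarith
  have hRb : ∀ j, k + 1 ≤ j → b (j + 1) ≤ 0.0465 * b j := fun j hj => by
    rw [hb]
    exact succ_div (by omega) (a_nonneg a pos zero _ m (by omega)) (by norm_num) (hR j hj)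
  have s1 := geomR (fun j => ((j : ℝ) - k) * b j) 0.093 0.103 (by norm_num) (by norm_num) (k + 1)
    (fun j hj => mul_nonneg (by
      have : (k : ℝ) + 1 ≤ j := by exact_mod_cast hj
      linarith) (hb0 j (by omega)))
    (fun j hj => by
      have h3 : (k : ℝ) + 1 ≤ j := by exact_mod_cast hj
      have h4 := hRb j hj
      have h5 := hb0 j (by omega)
      push_cast
      nlinarith [mul_le_mul_of_nonneg_left h4 (by linarith : (0 : ℝ) ≤ j + 1 - k),
        mul_nonneg h5 (by linarith : (0 : ℝ) ≤ j - k - 1)]) (m + 1)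
  have s3 := geomR (fun j => ((j : ℝ) - k) ^ 3 * b j) 0.372 0.593 (by norm_num) (by norm_num)
    (k + 1)
    (fun j hj => mul_nonneg (pow_nonneg (by
      have : (k : ℝ) + 1 ≤ j := by exact_mod_cast hj
      linarith) 3) (hb0 j (by omega)))
    (fun j hj => by
      have h3 : (k : ℝ) + 1 ≤ j := by exact_mod_cast hj
      have h4 := hRb j hj
      have h5 := hb0 j (by omega)
      have h6 : ((j : ℝ) + 1 - k) ^ 3 ≤ (2 * (j - k)) ^ 3 :=
        pow_le_pow_left₀ (by linarith) (by linarith) 3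
      push_cast
      calc _ ≤ (2 * ((j : ℝ) - k)) ^ 3 * (0.0465 * b j) :=
            mul_le_mul h6 h4 (hb0 _ (by omega)) (pow_nonneg (by linarith) 3)
        _ = _ := by ring) (m + 1)
  simp only [Nat.cast_add, Nat.cast_one, add_sub_cancel_left, one_pow, one_mul] at s1 s3
  have t4 : ∑ j ∈ Ico (k + 2) (m + 1), |t j| ≤ β * ((0.103 + 0.087 * 0.593) * b (k + 1)) := by
    have h2 : ∑ j ∈ Ico (k + 2) (m + 1), |t j| ≤ ∑ j ∈ Ico (k + 2) (m + 1),
        β * (((j : ℝ) - k) * b j + 0.087 * (((j : ℝ) - k) ^ 3 * b j)) := by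
      refine sum_le_sum fun j hj => ?_
      obtain ⟨hj1, hj2⟩ := mem_Ico.mp hj
      have h3 : (k : ℝ) + 2 ≤ j := by exact_mod_cast hj1
      have h3' : (j : ℝ) + 1 ≤ m + 1 := by exact_mod_cast hj2
      have h4 := hup j (by omega) (by omega) _ (g_right hk' (by linarith) h3' hN)
      have h5 := hlow j (by omega) _ (hK.trans (g_low' (j := j) (by linarith) (by linarith)
        (by linarith)))
      have h6 := mul_nonneg hβ0.le (hb0 j (by omega))
      have h7 : 0 ≤ t j := by nlinarith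
      rw [abs_of_nonneg h7]
      nlinarith
    rw [← mul_sum, sum_add_distrib, ← mul_sum] at h2
    refine h2.trans (mul_le_mul_of_nonneg_left ?_ hβ0.le)
    linarith
  have t5 : |t (m + 1)| ≤ β * (0.001 * b (k + 1)) := by
    have hm0 : (0 : ℝ) < m := by linarith
    have h2 : t (m + 1) = y * (m * b m) := by
      simp only [ht, hb, diag, zero (m + 1) m (by omega)]
      push_cast
      field_simp
      ring
    have h3 : ((m : ℝ) - k) * b m ≤ 0.103 * b (k + 1) := by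
      refine le_trans ?_ s1
      refine single_le_sum (f := fun j : ℕ => ((j : ℝ) - k) * b j) (fun j hj => ?_)
        (mem_Ico.mpr ⟨by omega, by omega⟩)
      have h4 := (mem_Ico.mp hj).1
      have : (k : ℝ) + 1 + 1 ≤ j := by exact_mod_cast h4
      exact mul_nonneg (by linarith) (hb0 j (by omega))
    have h4 := hb0 m (by omega)
    have h5 : m * b m ≤ b (k + 1) := by nlinarith
    rw [h2, abs_of_nonneg (by positivity)]
    nlinarith [mul_le_mul hy h5 (by positivity) (by norm_num)]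
  have h2 := alt_le t k (m + 1) hk (by omega)
  rw [sum_Ico_succ_top (by omega)] at h2
  rw [h1]
  nlinarith [mul_pos hβ0 hbk, mul_nonneg hβ0.le hbK]

end Step

end Pool.Agent.MP_dbd6a6_co.H21
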