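import Pool.Agent.MP_dbd6a6_co.H70.Spec
import Pool.Agent.MP_dbd6a6_co.H21.TinyAux

/-! The tiny range of `y`. -/

open Finset

namespace Pool.Agent.MP_dbd6a6_co.H21

open H92 H70

theorem k_bound {n k X : ℝ} (hn : 200 ≤ n) (hk : 4 ≤ k) (hX : 0 ≤ X)
    (h1 : 25 * n ≤ 18 * (X + 0.32) ^ 2) (h2 : 4 * k * X < n + 6 * k) :
    11.5 * (k + 1) ^ 2 + k + 1 ≤ n := by
  by_contra hc
  push Not at hc
  have h3 : (4 * k * (X + 0.32)) ^ 2 < (n + 7.28 * k) ^ 2 :=
    pow_lt_pow_left₀ (by linarith) (by positivity) two_ne_zero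
  have h4 : 16 * k ^ 2 * (25 * n) ≤ 16 * k ^ 2 * (18 * (X + 0.32) ^ 2) :=
    mul_le_mul_of_nonneg_left h1 (by positivity)
  have h5 : n * n ≤ (11.5 * (k + 1) ^ 2 + k + 1) * n :=
    mul_le_mul_of_nonneg_right hc.le (by linarith)
  have h6 : 200 * k ^ 2 ≤ n * k ^ 2 := mul_le_mul_of_nonneg_right hn (by positivity)
  have h7 : 0 ≤ 188.2 * k ^ 2 - 694.1 * k - 225 := by nlinarith
  have h8 := mul_nonneg h7 (by linarith : 0 ≤ n)
  have h9 : 0 ≤ k * n := by positivity
  have h10 : 0 ≤ k ^ 2 * n := by positivity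
  nlinarith

theorem prev_low {A0 A1 B0 B1 β k N : ℝ} (hk : 1 ≤ k) (hβ : 0 < β) (hA1 : 0 < A1)
    (hN : 11.5 * (k + 1) ^ 2 ≤ N - (k + 1)) (h1 : 0.586 * (k + 1) * A1 ≤ k * B1)
    (h2 : (N - (k + 1)) * B1 ≤ (k + 1) * β * N * B0) (h3 : k * β * N * A0 ≤ (N + 6 * k) * A1) :
    0.46 * A0 ≤ B0 := by
  have hN0 : 0 < N := by nlinarith
  have hP : 0 < N - (k + 1) := by nlinarith
  have h4 : 0.46 * (N + 6 * k) ≤ 0.586 * (N - (k + 1)) := by nlinarith
  have h5 := mul_le_mul_of_nonneg_left h1 hP.le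
  have h6 := mul_le_mul_of_nonneg_left h2 (by linarith : 0 ≤ k)
  have h7 := mul_le_mul_of_nonneg_left h3 (by linarith : 0 ≤ 0.46 * (k + 1))
  have h8 := mul_le_mul_of_nonneg_right h4 (by positivity : 0 ≤ (k + 1) * A1)
  apply le_of_mul_le_mul_left _ (by positivity : 0 < k * (k + 1) * β * N)
  nlinarith

theorem prev_up {A0 A1 B0 B1 β k N : ℝ} (hk : 1 ≤ k) (hβ : 0 < β) (hA1 : 0 < A1)
    (hN : 11.5 * (k + 1) ^ 2 ≤ N - (k + 1)) (h1 : k * B1 ≤ 1.546 * (k + 1) * A1)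
    (h2 : (k + 1) * β * N * B0 ≤ (N + 6 * (k + 1)) * B1) (h3 : (N - k) * A1 ≤ k * β * N * A0) :
    B0 ≤ 3.1 * A0 := by
  have hN0 : 0 < N := by nlinarith
  have h4 : 1.546 * (N + 6 * (k + 1)) ≤ 3.1 * (N - k) := by nlinarith
  have h5 := mul_le_mul_of_nonneg_left h1 (by linarith : 0 ≤ N + 6 * (k + 1))
  have h6 := mul_le_mul_of_nonneg_left h2 (by linarith : 0 ≤ k)
  have h7 := mul_le_mul_of_nonneg_left h3 (by linarith : 0 ≤ 3.1 * (k + 1))
  have h8 := mul_le_mul_of_nonneg_right h4 (by positivity : 0 ≤ (k + 1) * A1)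
  apply le_of_mul_le_mul_left _ (by positivity : 0 < k * (k + 1) * β * N)
  nlinarith

theorem tiny (hM : MeasStmt) (hC : CoefStmt) (hT : ThetaStmt) : TinyStmt := by
  intro y X n hy0 hy hn hX hnX hI hc
  have hβ := hM.bet_ge y hy0
  have hβ0 : 0 < bet y := by linarith
  have pos := fun j m => hC.pos y j m hy0
  have zero := hC.zero y
  have nn := a_nonneg (aa y) pos zero
  have hcc : ∀ m, 1 ≤ m → cc y m = CC (aa y) m := fun m hm => hC.cc_eq y m hy0 hm
  have hex : ∃ j, 1 ≤ j ∧ aa y (j + 1) n ≤ 8 * aa y j n :=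
    ⟨n, by omega, by rw [zero (n + 1) n (by omega)]; linarith [nn n n (by omega)]⟩
  classical
  obtain ⟨k, ⟨hk, hk8⟩, hmin, hkn⟩ : ∃ k, (1 ≤ k ∧ aa y (k + 1) n ≤ 8 * aa y k n) ∧
      (∀ j, 1 ≤ j → j < k → aa y j n ≤ 0.125 * aa y (j + 1) n) ∧ k ≤ n := by
    refine ⟨Nat.find hex, Nat.find_spec hex, fun j hj hjk => ?_, Nat.find_min' hex
      ⟨by omega, by rw [zero (n + 1) n (by omega)]; linarith [nn n n (by omega)]⟩⟩
    have := Nat.find_min hex hjk
    push Not at this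
    linarith [this hj]
  have hk' : (1 : ℝ) ≤ k := by exact_mod_cast hk
  have hn' : (200 : ℝ) ≤ n := by exact_mod_cast hn
  obtain ⟨b, hb⟩ : ∃ b : ℕ → ℝ, b = fun j => aa y j n / j := ⟨_, rfl⟩
  have hb0 : ∀ j, 1 ≤ j → 0 ≤ b j := fun j hj => by
    rw [hb]
    exact div_nonneg (nn j n hj) (Nat.cast_nonneg _)
  have hak := pos k n hk hkn
  have hbk : 0 < b k := by
    rw [hb]
    exact div_pos hak (by linarith)
  have hbK := hb0 (k + 1) (by omega)
  have hsum : ∑ j ∈ range (n + 1), (-1) ^ j * b (j + 1) = 0 := by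
    rw [hcc n (by omega), CC_eq _ zero] at hc
    simpa only [hb] using hc
  have hL : ∑ j ∈ Ico 1 k, |b j| ≤ 0.3334 * b k := by
    refine le_trans (le_of_eq (sum_congr rfl fun j hj => abs_of_nonneg (hb0 j (mem_Ico.mp hj).1)))
      (geomL b (2 * 0.125) 0.3334 (by norm_num) (by norm_num) k (fun j hj _ => hb0 j hj)
        (fun j hj hjk => ?_) hk)
    rw [hb]
    exact div_succ hj (nn _ n (by omega)) (by norm_num) (hmin j hj hjk)
  have hR : ∀ q c : ℝ, 0 ≤ q → 0 ≤ c → q * (1 + c) ≤ c →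
      (∀ j, k + 1 ≤ j → aa y (j + 1) n ≤ q * aa y j n) →
      ∑ j ∈ Ico (k + 2) (n + 1 + 1), |b j| ≤ c * b (k + 1) := by
    intro q c hq hc0 hqc h
    refine le_trans (le_of_eq (sum_congr rfl fun j hj =>
      abs_of_nonneg (hb0 j (by have := (mem_Ico.mp hj).1; omega))))
      (geomR b q c hc0 hqc (k + 1) (fun j hj => hb0 j (by omega)) (fun j hj => ?_) _)
    rw [hb]
    exact succ_div (by omega) (nn _ n (by omega)) hq (h j hj)
  have a1 := alt_le b k (n + 1) hk (by omega)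
  have a2 := alt_le (fun j => -b j) k (n + 1) hk (by omega)
  simp only [mul_neg, sum_neg_distrib, abs_neg, hsum, mul_zero, neg_zero] at a1 a2
  by_cases hcase : (n : ℝ) + 6 * k ≤ X * (k * bet y)
  · exfalso
    have h1 : ∀ j, k ≤ j → aa y (j + 1) n ≤ 0.3 * aa y j n := by
      intro j hj
      have hj' : (k : ℝ) ≤ j := by exact_mod_cast hj
      have h2 := hC.ratio_up y j n hy0 (by omega)
      have h3 := hT.le_exp y (j * bet y) X (n + 6 * j) hy0 (mul_pos (by linarith) hβ0) (by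
        push_cast
        have h4 : 6 * k ≤ (X * bet y) * k := by linarith
        have h5 : 6 ≤ X * bet y := le_of_mul_le_mul_right h4 (by linarith)
        nlinarith [mul_nonneg (sub_nonneg.mpr h5) (sub_nonneg.mpr hj')])
      exact h2.trans (mul_le_mul_of_nonneg_right (by linarith) (nn j n (by omega)))
    have h2 := hR 0.3 0.43 (by norm_num) (by norm_num) (by norm_num) fun j hj => h1 j (by omega)
    have h3 : b (k + 1) ≤ 0.3 * b k := by
      rw [hb]
      exact succ_div hk hak.le (by norm_num) (h1 k le_rfl)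
    linarith
  have hkb : 11.5 * ((k : ℝ) + 1) ^ 2 + k + 1 ≤ n := by
    rcases le_or_gt k 3 with h | h
    · have : (k : ℝ) ≤ 3 := by exact_mod_cast h
      nlinarith
    · refine k_bound hn' (by exact_mod_cast h) hX hnX ?_
      nlinarith [mul_nonneg (mul_nonneg hX (by linarith : (0 : ℝ) ≤ k)) (sub_nonneg.mpr hβ)]
  have right : ∀ (m : ℕ) (ρ : ℝ), 199 ≤ m → 11.5 * ((k : ℝ) + 1) ^ 2 + k ≤ m →
      aa y (k + 1) m ≤ ρ * aa y k m →
      ∀ j, k + 1 ≤ j → aa y (j + 1) m ≤ 0.015 * ρ * aa y j m := by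
    intro m ρ hm hmk h j hj
    have hkm : k ≤ m := by
      have : (k : ℝ) ≤ m := by nlinarith
      exact_mod_cast this
    have h1 := hC.ratio_low y k m hy0 hk hkm
    have h2 : VI y (k * bet y) (m - k) ≤ ρ :=
      le_of_mul_le_mul_right (h1.trans h) (pos k m hk hkm)
    have h3 := hT.theta y j k m hy0 hy hm hk hj hmk
    exact (hC.ratio_up y j m hy0 (by omega)).trans
      (mul_le_mul_of_nonneg_right (by linarith) (nn j m (by omega)))
  have left : ∀ m : ℕ, 199 ≤ m → 11.5 * ((k : ℝ) + 1) ^ 2 + k ≤ m →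
      0.46 * aa y k m ≤ aa y (k + 1) m →
      ∀ j, 1 ≤ j → j < k → aa y j m ≤ 0.0327 * aa y (j + 1) m := by
    intro m hm hmk h j hj hjk
    have hkm : k ≤ m := by
      have : (k : ℝ) ≤ m := by nlinarith
      exact_mod_cast this
    have hjk' : (j : ℝ) ≤ k := by exact_mod_cast hjk.le
    have hj0 : (0 : ℝ) ≤ j := Nat.cast_nonneg j
    have h1 := hC.ratio_up y k m hy0 hk
    have h2 : 0.46 ≤ VI y (k * bet y) (m + 6 * k) :=
      le_of_mul_le_mul_right (h.trans h1) (pos k m hk hkm)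
    have h3 := hT.theta y k j m hy0 hy hm hj hjk (by nlinarith)
    have h4 := hC.ratio_low y j m hy0 hj (by omega)
    have h5 := nn j m hj
    nlinarith [mul_le_mul_of_nonneg_right (show 30.6 ≤ VI y (j * bet y) (m - j) by linarith) h5]
  have r1 := hR (0.015 * 8) 0.137 (by norm_num) (by norm_num) (by norm_num)
    (right n 8 (by omega) (by linarith) hk8)
  have eA : aa y k n = k * b k := by
    rw [hb]
    field_simp
  have eB : aa y (k + 1) n = (k + 1) * b (k + 1) := by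
    rw [hb]
    push_cast
    field_simp
  have r2 : 0.586 * b k ≤ b (k + 1) := by linarith
  have r3 : b (k + 1) ≤ 1.546 * b k := by linarith
  have kk : 0 ≤ (k : ℝ) * (k + 1) := by positivity
  have l1 : 0.586 * (k + 1) * aa y k n ≤ k * aa y (k + 1) n := by
    rw [eA, eB]
    nlinarith [mul_le_mul_of_nonneg_left r2 kk]
  have u1 : k * aa y (k + 1) n ≤ 1.546 * (k + 1) * aa y k n := by
    rw [eA, eB]
    nlinarith [mul_le_mul_of_nonneg_left r3 kk]
  have l2 : 0.46 * aa y k n ≤ aa y (k + 1) n := by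
    rw [eA, eB]
    nlinarith [mul_le_mul_of_nonneg_left r2 (by linarith : (0 : ℝ) ≤ k), mul_pos hbk hbk,
      mul_nonneg (by linarith : (0 : ℝ) ≤ k) hbk.le]
  have u2 : aa y (k + 1) n ≤ 3.1 * aa y k n := by
    rw [eA, eB]
    nlinarith [mul_le_mul_of_nonneg_left r3 (by linarith : (0 : ℝ) ≤ k + 1),
      mul_nonneg (by linarith : (0 : ℝ) ≤ k - 1) hbk.le]
  have up := fun j m => hC.step_up y j m hy0
  have low := fun j m => hC.step_low y j m hy0
  obtain ⟨l, -, hl⟩ := step (aa y) (bet y) y hβ hy0 hy pos zero (hC.diag y) up low n k hk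
    (by linarith) (left n (by omega) (by linarith) l2)
    (fun j hj => (right n 3.1 (by omega) (by linarith) u2 j hj).trans (by norm_num))
  obtain ⟨m, rfl⟩ : ∃ m, n = m + 1 := ⟨n - 1, by omega⟩
  push_cast at hkb
  have hN : 11.5 * ((k : ℝ) + 1) ^ 2 ≤ (m + 1) - (k + 1) := by linarith
  have l3 : 0.46 * aa y k m ≤ aa y (k + 1) m :=
    prev_low hk' hβ0 hak hN l1 (by simpa using up (k + 1) m) (low k m)
  have u3 : aa y (k + 1) m ≤ 3.1 * aa y k m :=
    prev_up hk' hβ0 hak hN u1 (by simpa using low (k + 1) m) (up k m)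
  obtain ⟨l', hl0, hl'⟩ := step (aa y) (bet y) y hβ hy0 hy pos zero (hC.diag y) up low m k hk
    (by linarith) (left m (by omega) (by linarith) l3)
    (fun j hj => (right m 3.1 (by omega) (by linarith) u3 j hj).trans (by norm_num))
  rw [← hcc _ (by omega), ← hcc _ (by omega), hc] at hl hl'
  rw [Nat.add_sub_cancel]
  have hs : ((-1 : ℝ) ^ (k + 1)) ^ 2 = 1 := by rw [← pow_mul, mul_comm, pow_mul]; simp
  obtain ⟨s, hs'⟩ : ∃ s : ℝ, s = (-1) ^ (k + 1) := ⟨_, rfl⟩
  rw [← hs'] at hl hl' hs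
  have p1 : s * cc y (m + 1 + 1) < 0 := by simpa using hl
  have p2 : 0 < s * cc y m := by
    have : 0 < l' * (s * cc y m) := by linarith
    exact (mul_pos_iff_of_pos_left hl0).mp this
  have p3 := mul_neg_of_pos_of_neg p2 p1
  calc _ = s ^ 2 * (cc y m * cc y (m + 1 + 1)) := by rw [hs, one_mul]
    _ = s * cc y m * (s * cc y (m + 1 + 1)) := by ring
    _ < 0 := p3

end Pool.Agent.MP_dbd6a6_co.H21
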